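import Mathlib

namespace Pool.Agent.Results.MP_9a7beb_co.Counter

open Finset

/-- The middle graph `M(G)` on `V(G) ⊕ E(G)`. -/
def middle {V : Type} (G : SimpleGraph V) : SimpleGraph (V ⊕ G.edgeSet) where
  Adj
    | Sum.inl _, Sum.inl _ => False
    | Sum.inl v, Sum.inr e => v ∈ e.1
    | Sum.inr e, Sum.inl v => v ∈ e.1
    | Sum.inr e, Sum.inr f => G.lineGraph.Adj e f
  symm := ⟨by rintro (_ | _) (_ | _) h <;> first | exact h | exact h.symm⟩
  loopless := ⟨by rintro (_ | _) h <;> first | exact h | exact h.ne rfl⟩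

/-- `D` is an outer-connected dominating set (the empty graph counts as connected). -/
def IsOCD {W : Type} (H : SimpleGraph W) (D : Finset W) : Prop :=
  (∀ v, v ∉ D → ∃ u ∈ D, H.Adj u v) ∧ (H.induce {v | v ∉ D}).Preconnected

/-- The outer-connected domination number. -/
noncomputable def gamma {W : Type} (H : SimpleGraph W) : ℕ :=
  sInf {k | ∃ D, IsOCD H D ∧ D.card = k}

/-- Two copies of `K₄` joined by a path with three edges. -/
def G : SimpleGraph (Fin 10) := SimpleGraph.fromRel fun u v =>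
  (u.1 ≤ 3 ∧ v.1 ≤ 3) ∨ (6 ≤ u.1 ∧ 6 ≤ v.1) ∨ u.1 + 1 = v.1

instance : DecidableRel G.Adj := fun u v => by unfold G; infer_instance

theorem line_adj {a b c d : Fin 10} (h : G.Adj a b) (h' : G.Adj c d) :
    G.lineGraph.Adj ⟨s(a, b), h⟩ ⟨s(c, d), h'⟩ ↔
      s(a, b) ≠ s(c, d) ∧ (a = c ∨ a = d ∨ b = c ∨ b = d) := by
  rw [SimpleGraph.lineGraph_adj_iff_exists]
  simp only [ne_eq, Subtype.mk.injEq, Sym2.mem_iff]
  refine and_congr_right fun _ => ⟨?_, ?_⟩
  · rintro ⟨v, rfl | rfl, h⟩ <;> tauto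
  · rintro (rfl | rfl | rfl | rfl) <;> simp

theorem result : ∃ G : SimpleGraph (Fin 10), G.Connected ∧ gamma (middle G) < gamma G.lineGraph := by
  classical
  refine ⟨G, ?_, ?_⟩
  · have h : ∀ k (hk : k < 10), G.Reachable 0 ⟨k, hk⟩ := by
      intro k
      induction k with
      | zero => intro _; rfl
      | succ k ih =>
        intro hk
        refine (ih (by omega)).trans (SimpleGraph.Adj.reachable ?_)
        simp [G, Fin.ext_iff]
    exact ⟨fun u v => (h u.1 u.2).symm.trans (h v.1 v.2)⟩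
  have h1 : gamma (middle G) ≤ 6 := by
    let D : Finset (Fin 10 ⊕ G.edgeSet) := {Sum.inl 4, Sum.inl 5, Sum.inr ⟨s(0, 1), by decide⟩,
      Sum.inr ⟨s(2, 3), by decide⟩, Sum.inr ⟨s(6, 7), by decide⟩, Sum.inr ⟨s(8, 9), by decide⟩}
    have mD : ∀ a b (h : G.Adj a b), Sum.inr ⟨s(a, b), h⟩ ∈ D ↔
        s(a, b) = s(0, 1) ∨ s(a, b) = s(2, 3) ∨ s(a, b) = s(6, 7) ∨ s(a, b) = s(8, 9) := by
      intro a b h; simp only [D, mem_insert, mem_singleton, Sum.inr.injEq, Subtype.mk.injEq,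
        reduceCtorEq, false_or]
    refine le_trans (Nat.sInf_le ⟨D, ⟨?_, ?_⟩, rfl⟩) card_le_six
    · rintro (v | ⟨e, he⟩) hv
      · have : ∀ v : Fin 10, v = 4 ∨ v = 5 ∨ ∃ a b, G.Adj a b ∧ (s(a, b) = s(0, 1) ∨
            s(a, b) = s(2, 3) ∨ s(a, b) = s(6, 7) ∨ s(a, b) = s(8, 9)) ∧ v = a := by
          decide +kernel
        rcases this v with rfl | rfl | ⟨a, b, h, h', rfl⟩
        · simp [D] at hv
        · simp [D] at hv
        · exact ⟨_, (mD v b h).2 h', Sym2.mem_mk_left _ _⟩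
      · induction e using Sym2.ind with
        | h a b =>
        have : ∀ a b : Fin 10, G.Adj a b → (a = 4 ∨ b = 4) ∨ (a = 5 ∨ b = 5) ∨
            ∃ c d, G.Adj c d ∧ (s(c, d) = s(0, 1) ∨ s(c, d) = s(2, 3) ∨ s(c, d) = s(6, 7) ∨
              s(c, d) = s(8, 9)) ∧ (c = a ∨ c = b ∨ d = a ∨ d = b) := by decide +kernel
        rcases this a b he with h | h | ⟨c, d, h, h', h''⟩
        · exact ⟨Sum.inl 4, by simp [D], by rcases h with rfl | rfl <;> simp [middle]⟩
        · exact ⟨Sum.inl 5, by simp [D], by rcases h with rfl | rfl <;> simp [middle]⟩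
        · refine ⟨_, (mD c d h).2 h', (line_adj h he).2 ⟨fun e => hv ((mD a b he).2 (e ▸ h')), h''⟩⟩
    · have r0 : (Sum.inr ⟨s(4, 5), by decide⟩ : Fin 10 ⊕ G.edgeSet) ∉ D := by
        rw [mD]; decide
      have key : ∀ k a b (h : G.Adj a b) (hD : Sum.inr ⟨s(a, b), h⟩ ∉ D),
          (a.1 + b.1 - 9) + (9 - (a.1 + b.1)) = k →
          ((middle G).induce {v | v ∉ D}).Reachable ⟨_, r0⟩ ⟨_, hD⟩ := by
        intro k
        induction k using Nat.strong_induction_on with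
        | _ k ih =>
        intro a b h hD hk
        have : ∀ a b : Fin 10, G.Adj a b → ¬ (s(a, b) = s(0, 1) ∨ s(a, b) = s(2, 3) ∨
            s(a, b) = s(6, 7) ∨ s(a, b) = s(8, 9)) → s(4, 5) = s(a, b) ∨
            ∃ c d, G.Adj c d ∧ ¬ (s(c, d) = s(0, 1) ∨ s(c, d) = s(2, 3) ∨ s(c, d) = s(6, 7) ∨
              s(c, d) = s(8, 9)) ∧ (s(c, d) ≠ s(a, b) ∧ (c = a ∨ c = b ∨ d = a ∨ d = b)) ∧
              (c.1 + d.1 - 9) + (9 - (c.1 + d.1)) < (a.1 + b.1 - 9) + (9 - (a.1 + b.1)) := by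
          decide +kernel
        rcases this a b h (mt (mD a b h).2 hD) with e | ⟨c, d, h1, h2, h3, h4⟩
        · have : (⟨_, r0⟩ : {v | v ∉ D}) = ⟨_, hD⟩ :=
            Subtype.ext (congrArg Sum.inr (Subtype.ext e))
          rw [this]
        · exact (ih _ (hk ▸ h4) c d h1 (mt (mD c d h1).1 h2) rfl).trans
            (SimpleGraph.Adj.reachable ((line_adj h1 h).2 h3))
      have all : ∀ x, ((middle G).induce {v | v ∉ D}).Reachable ⟨_, r0⟩ x := by
        rintro ⟨v | ⟨e, he⟩, hx⟩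
        · have : ∀ v : Fin 10, ∃ b, G.Adj v b ∧ ¬ (s(v, b) = s(0, 1) ∨ s(v, b) = s(2, 3) ∨
              s(v, b) = s(6, 7) ∨ s(v, b) = s(8, 9)) := by decide +kernel
          obtain ⟨b, h, h'⟩ := this v
          exact (key _ v b h (mt (mD v b h).1 h') rfl).trans
            (SimpleGraph.Adj.reachable (Sym2.mem_mk_left _ _))
        · induction e using Sym2.ind with
          | h a b => exact key _ a b he hx rfl
      exact fun x y => (all x).symm.trans (all y)
  have h2 : 7 ≤ gamma G.lineGraph := by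
    refine le_csInf ⟨_, univ, ⟨by simp, fun x => absurd (mem_univ _) x.2⟩, rfl⟩ ?_
    rintro _ ⟨D, ⟨d1, d2⟩, rfl⟩
    obtain ⟨p, q, hpq, hq, hp3, hp5, hD⟩ : ∃ (p q : Fin 10) (h : G.Adj p q),
        q.1 = p.1 + 1 ∧ 3 ≤ p.1 ∧ p.1 ≤ 5 ∧ ⟨s(p, q), h⟩ ∈ D := by
      by_cases h : (⟨s(4, 5), by decide⟩ : G.edgeSet) ∈ D
      · exact ⟨4, 5, by decide, rfl, by decide, by decide, h⟩
      · obtain ⟨⟨e, he⟩, h1, h2⟩ := d1 _ h
        induction e using Sym2.ind with
        | h a b =>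
        have : ∀ a b : Fin 10, G.Adj a b → (a = 4 ∨ a = 5 ∨ b = 4 ∨ b = 5) → ∃ p q : Fin 10,
            s(a, b) = s(p, q) ∧ G.Adj p q ∧ q.1 = p.1 + 1 ∧ 3 ≤ p.1 ∧ p.1 ≤ 5 := by decide +kernel
        obtain ⟨p, q, e, h3, h4, h5, h6⟩ := this a b he ((line_adj he (by decide)).1 h2).2
        exact ⟨p, q, h3, h4, h5, h6, by rwa [← show (⟨s(a, b), he⟩ : G.edgeSet) = ⟨s(p, q), h3⟩ from
          Subtype.ext e]⟩
    have inv : ∀ x y : {v | v ∉ D}, (G.lineGraph.induce {v | v ∉ D}).Reachable x y →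
        (∀ v ∈ x.1.1, v ≤ p) → ∀ v ∈ y.1.1, v ≤ p := by
      rintro x y ⟨w⟩
      induction w with
      | nil => exact id
      | @cons x z y h w ih =>
        intro hx
        refine ih ?_
        obtain ⟨⟨e, he⟩, hz⟩ := z
        obtain ⟨-, v, v1, v2⟩ := SimpleGraph.lineGraph_adj_iff_exists.1 h
        induction e using Sym2.ind with
        | h a b =>
        have : ∀ a b p q : Fin 10, G.Adj a b → q.1 = p.1 + 1 → 3 ≤ p.1 → p.1 ≤ 5 →
            s(a, b) = s(p, q) ∨ (a ≤ p ↔ b ≤ p) := by decide +kernel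
        rcases this a b p q he hq hp3 hp5 with e | e
        · exact absurd (by rwa [show (⟨s(a, b), he⟩ : G.edgeSet) = ⟨s(p, q), hpq⟩ from
            Subtype.ext e]) hz
        · have := hx v v1
          have v3 : v = a ∨ v = b := Sym2.mem_iff.1 v2
          simp only [Sym2.mem_iff]
          rcases v3 with rfl | rfl <;> rintro u (rfl | rfl) <;> tauto
    have cnt : ∀ S : Finset (Sym2 (Fin 10)), S.card = 6 → s(p, q) ∉ S →
        (∀ e ∈ S, ∃ h : e ∈ G.edgeSet, ⟨e, h⟩ ∈ D) → 7 ≤ D.card := by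
      intro S hS hn h
      have : insert s(p, q) S ⊆ D.image Subtype.val := by
        intro e he
        rcases mem_insert.1 he with rfl | he
        · exact mem_image.2 ⟨_, hD, rfl⟩
        · obtain ⟨h1, h2⟩ := h e he
          exact mem_image.2 ⟨_, h2, rfl⟩
      have := (card_le_card this).trans card_image_le
      rw [card_insert_of_notMem hn] at this
      omega
    by_contra hc
    have n1 : ∃ a b, ∃ h : G.Adj a b, a.1 ≤ 3 ∧ b.1 ≤ 3 ∧ ⟨s(a, b), h⟩ ∉ D := by
      by_contra hn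
      push Not at hn
      refine hc (cnt {s(0, 1), s(0, 2), s(0, 3), s(1, 2), s(1, 3), s(2, 3)} (by decide) ?_ ?_)
      · clear hD inv cnt hpq; revert p q; decide +kernel
      · simp only [mem_insert, mem_singleton]
        rintro e (rfl | rfl | rfl | rfl | rfl | rfl) <;>
          exact ⟨by decide, hn _ _ (by decide) (by decide) (by decide)⟩
    have n2 : ∃ a b, ∃ h : G.Adj a b, 6 ≤ a.1 ∧ 6 ≤ b.1 ∧ ⟨s(a, b), h⟩ ∉ D := by
      by_contra hn
      push Not at hn
      refine hc (cnt {s(6, 7), s(6, 8), s(6, 9), s(7, 8), s(7, 9), s(8, 9)} (by decide) ?_ ?_)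
      · clear hD inv cnt hpq; revert p q; decide +kernel
      · simp only [mem_insert, mem_singleton]
        rintro e (rfl | rfl | rfl | rfl | rfl | rfl) <;>
          exact ⟨by decide, hn _ _ (by decide) (by decide) (by decide)⟩
    obtain ⟨a, b, h, a1, b1, hab⟩ := n1
    obtain ⟨c, d, h', c1, -, hcd⟩ := n2
    have := inv ⟨_, hab⟩ ⟨_, hcd⟩ (d2 _ _) (by
      simp only [Sym2.mem_iff]
      rintro v (rfl | rfl) <;> rw [Fin.le_def] <;> omega) c (Sym2.mem_mk_left _ _)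
    rw [Fin.le_def] at this
    omega
  omega

end Pool.Agent.Results.MP_9a7beb_co.Counter
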